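import Pool.Agent.K1H50.PV.Stm

/-!
# The first moment
-/

set_option autoImplicit false

namespace Pool.Agent.K1H63.PV

open Finset
open Pool.Agent.Y862.SQ (rH VH V1 Ns)
open Pool.Agent.Y882 (VV)
open Pool.Agent.K1H50.PV

theorem rH_le (H : Finset ℕ) (p : ℕ) : rH H p ≤ p := by
  unfold rH
  exact (card_filter_le _ _).trans (card_range p).le

theorem VH_nonneg (H : Finset ℕ) (y : ℕ) : 0 ≤ VH H y := by
  unfold VH
  refine prod_nonneg fun p _ => ?_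
  rw [sub_nonneg]
  exact div_le_one_of_le₀ (by exact_mod_cast rH_le H p) (Nat.cast_nonneg _)

theorem gg_nonneg (h p : ℕ) : 0 ≤ gg h p := by
  unfold gg
  positivity

/-- **WSUM.** -/
theorem wsum (P : Finset ℕ) (g : ℕ → ℝ) {E : ℝ} (hE : ∏ p ∈ P, (1 + g p) ≤ E) :
    ∑ U ∈ P.powerset, ∏ p ∈ U, g p ≤ E := by
  rw [← prod_one_add]
  exact hE

open Classical in
/-- **CARD.** -/
theorem card_le (P : Finset ℕ) (hP : ∀ p ∈ P, p.Prime) (c : Finset ℕ → ℝ) {D : ℝ} (hD0 : 0 ≤ D)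
    (hD : ∀ U ⊆ P, c U ≠ 0 → ((∏ p ∈ U, p : ℕ) : ℝ) ≤ D) :
    (((P.powerset.filter (fun U => c U ≠ 0)).card : ℕ) : ℝ) ≤ D := by
  have h1 : (P.powerset.filter (fun U => c U ≠ 0)).card ≤ (Icc 1 ⌊D⌋₊).card := by
    refine card_le_card_of_injOn (fun U => ∏ p ∈ U, p) ?_ ?_
    · intro U hU
      simp only [coe_filter, mem_powerset, Set.mem_ofPred_eq] at hU
      simp only [coe_Icc, Set.mem_Icc]
      refine ⟨?_, Nat.le_floor (hD U hU.1 hU.2)⟩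
      exact Nat.one_le_iff_ne_zero.2 (prod_ne_zero_iff.2 fun p hp => (hP p (hU.1 hp)).ne_zero)
    · intro U hU U' hU' he
      simp only [coe_filter, mem_powerset, Set.mem_ofPred_eq] at hU hU'
      have e1 := Nat.primeFactors_prod (s := U) fun p hp => hP p (hU.1 hp)
      have e2 := Nat.primeFactors_prod (s := U') fun p hp => hP p (hU'.1 hp)
      dsimp only at he
      rw [← e1, ← e2, he]
  rw [Nat.card_Icc, Nat.add_sub_cancel] at h1
  exact (Nat.cast_le.2 h1).trans (Nat.floor_le hD0)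

theorem sum_abs_le (P : Finset ℕ) (c : Finset ℕ → ℝ) {A E : ℝ} (cA : ∀ U, |c U| ≤ A) (A0 : 0 ≤ A)
    (g : ℕ → ℝ) (hg : ∀ p, 0 ≤ g p) (hE : ∏ p ∈ P, (1 + g p) ≤ E) :
    ∑ U ∈ P.powerset, |c U| * ∏ p ∈ U, g p ≤ A * E := by
  calc ∑ U ∈ P.powerset, |c U| * ∏ p ∈ U, g p ≤ ∑ U ∈ P.powerset, A * ∏ p ∈ U, g p :=
        sum_le_sum fun U _ => mul_le_mul_of_nonneg_right (cA U) (prod_nonneg fun p _ => hg p)
    _ = A * ∑ U ∈ P.powerset, ∏ p ∈ U, g p := by rw [mul_sum]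
    _ ≤ A * E := mul_le_mul_of_nonneg_left (wsum P g hE) A0

open Classical in
theorem sum_two_le (P : Finset ℕ) (hP : ∀ p ∈ P, p.Prime) (c : Finset ℕ → ℝ) {A D M : ℝ}
    (A0 : 0 ≤ A) (hD0 : 0 ≤ D) (M0 : 0 ≤ M) (cA : ∀ U, |c U| ≤ A)
    (cD : ∀ U ⊆ P, c U ≠ 0 → ((∏ p ∈ U, p : ℕ) : ℝ) ≤ D ∧ (2 : ℝ) ^ U.card ≤ M) :
    ∑ U ∈ P.powerset, |c U| * 2 ^ U.card ≤ A * M * D := by
  have h1 : ∑ U ∈ P.powerset, |c U| * (2 : ℝ) ^ U.card =
      ∑ U ∈ P.powerset.filter (fun U => c U ≠ 0), |c U| * (2 : ℝ) ^ U.card := by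
    rw [sum_filter]
    refine sum_congr rfl fun U _ => ?_
    by_cases h : c U = 0
    · simp [h]
    · simp [h]
  rw [h1]
  calc ∑ U ∈ P.powerset.filter (fun U => c U ≠ 0), |c U| * (2 : ℝ) ^ U.card
      ≤ ∑ U ∈ P.powerset.filter (fun U => c U ≠ 0), A * M := by
        refine sum_le_sum fun U hU => ?_
        rw [mem_filter, mem_powerset] at hU
        exact mul_le_mul (cA U) (cD U hU.1 hU.2).2 (by positivity) A0
    _ = (((P.powerset.filter (fun U => c U ≠ 0)).card : ℕ) : ℝ) * (A * M) := by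
        rw [sum_const, nsmul_eq_mul]
    _ ≤ D * (A * M) := mul_le_mul_of_nonneg_right
        (card_le P hP c hD0 fun U hU h => (cD U hU h).1) (mul_nonneg A0 M0)
    _ = A * M * D := by ring

open Classical in
/-- the sum over `n` for one `h` -/
theorem inner_eq (y Z Y h : ℕ) (P : Finset ℕ) (c : Finset ℕ → ℝ) :
    (∑ n ∈ Ioc Z (Z + Y), if (∀ p ∈ Pool.Agent.Y862.SQ.pr y, ¬ p ∣ n ^ 2 + h) then ll P c (n ^ 2 + h) else 0) =
      ∑ U ∈ P.powerset, c U * (cnt y Z Y h h U ∅ : ℝ) := by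
  have h1 : ∀ U ∈ P.powerset, c U * (cnt y Z Y h h U ∅ : ℝ) = ∑ n ∈ Ioc Z (Z + Y),
      if (∀ p ∈ Pool.Agent.Y862.SQ.pr y, ¬ p ∣ n ^ 2 + h) then
        c U * (if ∀ p ∈ U, p ∣ n ^ 2 + h then (1 : ℝ) else 0) else 0 := by
    intro U _
    unfold cnt
    rw [card_filter]
    push_cast
    rw [mul_sum]
    refine sum_congr rfl fun n _ => ?_
    by_cases h2 : ∀ p ∈ Pool.Agent.Y862.SQ.pr y, ¬ p ∣ n ^ 2 + h
    · rw [if_pos h2]
      by_cases h3 : ∀ p ∈ U, p ∣ n ^ 2 + h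
      · rw [if_pos h3, if_pos ⟨h3, by simp, fun p hp => ⟨h2 p hp, h2 p hp⟩⟩]
      · rw [if_neg h3, if_neg fun h4 => h3 h4.1]
    · rw [if_neg h2, if_neg, mul_zero]
      intro h3
      exact h2 fun p hp => (h3.2.2 p hp).1
  rw [sum_congr rfl h1, sum_comm]
  refine sum_congr rfl fun n _ => ?_
  split_ifs with h2
  · unfold ll VV
    refine sum_congr rfl fun U _ => ?_
    rw [Pool.Agent.Y882.prod_ind]
    by_cases h3 : ∀ p ∈ U, p ∣ n ^ 2 + h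
    · rw [if_pos h3, if_pos h3]
    · rw [if_neg h3, if_neg h3]
  · simp

/-- **M1.** -/
theorem t_M1 (h : S_CNT) : S_M1 := by
  classical
  obtain ⟨C0, hC0, hcnt⟩ := h
  refine ⟨C0, hC0, fun b hb => ?_⟩
  obtain ⟨y0, hy0⟩ := hcnt b hb
  refine ⟨y0, fun y hy Z Y T P c A D E M H => ?_⟩
  have hP : ∀ p ∈ P, p.Prime := fun p hp => (H.pr p hp).1
  have hD0 : (0 : ℝ) ≤ D := by linarith [H.D1]
  have hM0 : (0 : ℝ) ≤ M := by linarith [H.M1]
  -- one `h`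
  have key : ∀ h ∈ Icc 1 T,
      |(∑ n ∈ Ioc Z (Z + Y), if (∀ p ∈ Pool.Agent.Y862.SQ.pr y, ¬ p ∣ n ^ 2 + h) then
          ll P c (n ^ 2 + h) else 0) - Y * (VH {h} y * VV P c (gg h))| ≤
        (1 / 2 : ℝ) ^ b * (A * E) * (Y * VH {h} y) + A * M * D * (y : ℝ) ^ (C0 * b) := by
    intro h hh
    rw [inner_eq]
    have e1 : (Y : ℝ) * (VH {h} y * VV P c (gg h)) =
        ∑ U ∈ P.powerset, c U * (Y * VH {h} y * ∏ p ∈ U, gg h p) := by
      unfold VV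
      rw [mul_sum, mul_sum]
      exact sum_congr rfl fun U _ => by ring
    rw [e1, ← sum_sub_distrib]
    have h2 : ∀ U ∈ P.powerset, |c U * (cnt y Z Y h h U ∅ : ℝ) -
        c U * (Y * VH {h} y * ∏ p ∈ U, gg h p)| ≤
        (1 / 2 : ℝ) ^ b * (Y * VH {h} y) * (|c U| * ∏ p ∈ U, gg h p) +
          |c U| * 2 ^ U.card * (y : ℝ) ^ (C0 * b) := by
      intro U hU
      rw [mem_powerset] at hU
      have h3 := hy0 y hy Z Y h h U ∅ (fun p hp => H.pr p (hU hp)) (by simp) (by simp)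
      simp only [pair_eq_singleton, prod_empty, mul_one, card_empty, add_zero] at h3
      rw [← mul_sub, abs_mul]
      calc |c U| * |(cnt y Z Y h h U ∅ : ℝ) - Y * VH {h} y * ∏ p ∈ U, gg h p|
          ≤ |c U| * ((1 / 2 : ℝ) ^ b * (Y * VH {h} y * ∏ p ∈ U, gg h p) +
              2 ^ U.card * (y : ℝ) ^ (C0 * b)) := mul_le_mul_of_nonneg_left h3 (abs_nonneg _)
        _ = _ := by ring
    refine (abs_sum_le_sum_abs _ _).trans ((sum_le_sum h2).trans ?_)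
    rw [sum_add_distrib, ← mul_sum, ← sum_mul]
    have h4 := sum_abs_le P c H.cA H.A0 (gg h) (gg_nonneg h) (H.hE h hh)
    have h5 := sum_two_le P hP c H.A0 hD0 hM0 H.cA H.cD
    have h6 : 0 ≤ (1 / 2 : ℝ) ^ b * (Y * VH {h} y) :=
      mul_nonneg (by positivity) (mul_nonneg (Nat.cast_nonneg _) (VH_nonneg _ _))
    have h7 : (0 : ℝ) ≤ (y : ℝ) ^ (C0 * b) := by positivity
    calc (1 / 2 : ℝ) ^ b * (Y * VH {h} y) * ∑ U ∈ P.powerset, |c U| * ∏ p ∈ U, gg h p +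
          (∑ U ∈ P.powerset, |c U| * 2 ^ U.card) * (y : ℝ) ^ (C0 * b)
        ≤ (1 / 2 : ℝ) ^ b * (Y * VH {h} y) * (A * E) + A * M * D * (y : ℝ) ^ (C0 * b) :=
          add_le_add (mul_le_mul_of_nonneg_left h4 h6) (mul_le_mul_of_nonneg_right h5 h7)
      _ = _ := by ring
  -- the sum over `h`
  have e2 : ∑ n ∈ Ioc Z (Z + Y), SS y T P c n = ∑ h ∈ Icc 1 T, ∑ n ∈ Ioc Z (Z + Y),
      if (∀ p ∈ Pool.Agent.Y862.SQ.pr y, ¬ p ∣ n ^ 2 + h) then ll P c (n ^ 2 + h) else 0 := by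
    unfold SS
    rw [sum_comm]
  rw [e2, mul_sum, ← sum_sub_distrib]
  refine (abs_sum_le_sum_abs _ _).trans ((sum_le_sum key).trans (le_of_eq ?_))
  rw [sum_add_distrib, sum_const, Nat.card_Icc, Nat.add_sub_cancel, nsmul_eq_mul, ← mul_sum,
    ← mul_sum]
  ring

end Pool.Agent.K1H63.PV
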